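import Pool.Agent.helper94.SCT.Spec

/-!
# Project SCT (MP_ad8ced_nt), row PAV: the average of the singular factor over pairs of primes
-/

set_option autoImplicit false

namespace Pool.Agent.SCT

open Finset ArithmeticFunction MeasureTheory

/-- the nonzero integers of absolute value at most `M` -/
def PAV_T (M : ℕ) : Finset ℤ :=
  (Icc 1 M).image (fun h : ℕ => (h : ℤ)) ∪ (Icc 1 M).image (fun h : ℕ => -(h : ℤ))

theorem PAV_mem {M : ℕ} {a : ℤ} (h0 : a ≠ 0) (h1 : a.natAbs ≤ M) : a ∈ PAV_T M := by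
  unfold PAV_T
  have h2 : 1 ≤ a.natAbs := Int.natAbs_pos.2 h0
  rcases le_total 0 a with h | h
  · exact mem_union_left _ (mem_image.2 ⟨a.natAbs, mem_Icc.2 ⟨h2, h1⟩, by omega⟩)
  · exact mem_union_right _ (mem_image.2 ⟨a.natAbs, mem_Icc.2 ⟨h2, h1⟩, by omega⟩)

theorem PAV_ne {M : ℕ} {a : ℤ} (h : a ∈ PAV_T M) : a ≠ 0 := by
  unfold PAV_T at h
  rcases mem_union.1 h with h | h
  · obtain ⟨k, hk, rfl⟩ := mem_image.1 h
    have := (mem_Icc.1 hk).1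
    omega
  · obtain ⟨k, hk, rfl⟩ := mem_image.1 h
    have := (mem_Icc.1 hk).1
    omega

theorem PAV_sum (M : ℕ) (hff : ∀ n : ℕ, 1 ≤ ff n) :
    ∑ a ∈ PAV_T M, ff a.natAbs ^ 3 ≤ 2 * ∑ h ∈ Icc 1 M, ff h ^ 3 := by
  unfold PAV_T
  have h0 : ∀ n : ℕ, 0 ≤ ff n ^ 3 := fun n => pow_nonneg (zero_le_one.trans (hff n)) 3
  have h1 := Finset.sum_union_inter (s₁ := (Icc 1 M).image (fun h : ℕ => (h : ℤ)))
    (s₂ := (Icc 1 M).image (fun h : ℕ => -(h : ℤ))) (f := fun a : ℤ => ff a.natAbs ^ 3)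
  have h2 : ∑ a ∈ (Icc 1 M).image (fun h : ℕ => (h : ℤ)), ff a.natAbs ^ 3 = ∑ h ∈ Icc 1 M, ff h ^ 3 := by
    rw [Finset.sum_image (by intro a _ b _ hab; simpa using hab)]
    exact Finset.sum_congr rfl fun h _ => by rw [Int.natAbs_natCast]
  have h3 : ∑ a ∈ (Icc 1 M).image (fun h : ℕ => -(h : ℤ)), ff a.natAbs ^ 3 = ∑ h ∈ Icc 1 M, ff h ^ 3 := by
    rw [Finset.sum_image (by intro a _ b _ hab; simpa using hab)]
    exact Finset.sum_congr rfl fun h _ => by rw [Int.natAbs_neg, Int.natAbs_natCast]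
  have h4 : 0 ≤ ∑ a ∈ (Icc 1 M).image (fun h : ℕ => (h : ℤ)) ∩ (Icc 1 M).image (fun h : ℕ => -(h : ℤ)),
      ff a.natAbs ^ 3 := Finset.sum_nonneg fun a _ => h0 _
  linarith [h1, h2, h3, h4]

theorem PAV_core {C1 C2 : ℝ} (hC1 : 0 < C1) (hff : ∀ n : ℕ, 1 ≤ ff n)
    (hT : ∀ (y H : ℕ) (a : ℤ), 2 ≤ H → a ≠ 0 →
      (#((Ioc y (y + H)).filter fun n : ℕ => n.Prime ∧ ((n : ℤ) - a).natAbs.Prime) : ℝ) ≤
        C1 * H / Real.log H ^ 2 * ff a.natAbs)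
    (hS : ∀ H : ℕ, ∑ h ∈ Icc 1 H, ff h ^ 3 ≤ C2 * H) {x : ℕ} (hx : 2 ≤ x) (g : ℕ → ℕ → ℤ)
    (hg : ∀ p q : ℕ, ((p : ℤ) - g p q).natAbs = q)
    (hg0 : ∀ p q : ℕ, p ∈ Ioc x (2 * x) → q ∈ Ioc x (2 * x) → q ≠ p → g p q ≠ 0 ∧ (g p q).natAbs ≤ 4 * x) :
    ∑ p ∈ (Ioc x (2 * x)).filter Nat.Prime, ∑ q ∈ (Ioc x (2 * x)).filter (fun q : ℕ => q.Prime ∧ q ≠ p),
      ff (g p q).natAbs ^ 2 ≤ 8 * C1 * C2 * (x : ℝ) ^ 2 / Real.log x ^ 2 := by
  have h0 : ∀ n : ℕ, 0 ≤ ff n := fun n => zero_le_one.trans (hff n)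
  have hx0 : (0 : ℝ) ≤ x := Nat.cast_nonneg x
  have h1 : ∀ p ∈ (Ioc x (2 * x)).filter Nat.Prime,
      ∑ q ∈ (Ioc x (2 * x)).filter (fun q : ℕ => q.Prime ∧ q ≠ p), ff (g p q).natAbs ^ 2 ≤
      ∑ a ∈ PAV_T (4 * x), if ((p : ℤ) - a).natAbs.Prime then ff a.natAbs ^ 2 else 0 := by
    intro p hp
    rw [← Finset.sum_filter]
    have hinj : Set.InjOn (fun q => g p q) ((Ioc x (2 * x)).filter (fun q : ℕ => q.Prime ∧ q ≠ p)) := by
      intro q _ q' _ hqq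
      have e1 := hg p q
      have e2 := hg p q'
      simp only at hqq
      rw [hqq] at e1
      exact e1.symm.trans e2
    rw [← Finset.sum_image (f := fun a : ℤ => ff a.natAbs ^ 2) hinj]
    refine Finset.sum_le_sum_of_subset_of_nonneg ?_ fun a _ _ => pow_nonneg (h0 _) 2
    intro a ha
    obtain ⟨q, hq, rfl⟩ := mem_image.1 ha
    obtain ⟨hq1, hq2, hq3⟩ := mem_filter.1 hq
    obtain ⟨h3, h4⟩ := hg0 p q (mem_filter.1 hp).1 hq1 hq3
    refine mem_filter.2 ⟨PAV_mem h3 h4, ?_⟩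
    rw [hg p q]
    exact hq2
  refine (Finset.sum_le_sum h1).trans ?_
  rw [Finset.sum_comm]
  have h2 : ∀ a ∈ PAV_T (4 * x),
      (∑ p ∈ (Ioc x (2 * x)).filter Nat.Prime, if ((p : ℤ) - a).natAbs.Prime then ff a.natAbs ^ 2 else 0) ≤
      C1 * x / Real.log x ^ 2 * ff a.natAbs ^ 3 := by
    intro a ha
    rw [← Finset.sum_filter, Finset.sum_const, nsmul_eq_mul, Finset.filter_filter]
    have h3 := hT x x a hx (PAV_ne ha)
    rw [← two_mul] at h3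
    have h4 : (0 : ℝ) ≤ ff a.natAbs ^ 2 := pow_nonneg (h0 _) 2
    calc _ ≤ C1 * x / Real.log x ^ 2 * ff a.natAbs * ff a.natAbs ^ 2 := mul_le_mul_of_nonneg_right h3 h4
      _ = C1 * x / Real.log x ^ 2 * ff a.natAbs ^ 3 := by ring
  refine (Finset.sum_le_sum h2).trans ?_
  rw [← Finset.mul_sum]
  have h5 : ∑ a ∈ PAV_T (4 * x), ff a.natAbs ^ 3 ≤ 2 * (C2 * ((4 * x : ℕ) : ℝ)) :=
    (PAV_sum _ hff).trans (mul_le_mul_of_nonneg_left (hS (4 * x)) (by norm_num))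
  have h6 : 0 ≤ C1 * x / Real.log x ^ 2 := by positivity
  refine (mul_le_mul_of_nonneg_left h5 h6).trans (le_of_eq ?_)
  push_cast
  ring

/-- **PAV** -/
theorem PAV (hTWS : TWS_stmt) (hFFA : FFA_stmt) : PAV_stmt := by
  obtain ⟨C1, hC1, hT⟩ := hTWS
  obtain ⟨hff, hmul, C2, hC2, hS⟩ := hFFA
  have h0 : ∀ n : ℕ, 0 ≤ ff n := fun n => zero_le_one.trans (hff n)
  have h8 : 0 < ff 8 := zero_lt_one.trans_le (hff 8)
  refine ⟨ff 8 * (8 * C1 * C2), 2, by positivity, fun x hx => ?_⟩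
  have hA := PAV_core hC1 hff hT hS hx (fun p q => (p : ℤ) - q) (fun p q => by
    simp only [sub_sub_cancel, Int.natAbs_natCast]) (fun p q hp hq hpq => by
      have := mem_Ioc.1 hp
      have := mem_Ioc.1 hq
      constructor
      · omega
      · omega)
  have hB := PAV_core hC1 hff hT hS hx (fun p q => (p : ℤ) + q) (fun p q => by
    simp only [sub_add_cancel_left, Int.natAbs_neg, Int.natAbs_natCast]) (fun p q hp hq hpq => by
      have := mem_Ioc.1 hp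
      have := mem_Ioc.1 hq
      constructor
      · omega
      · omega)
  have hterm : ∀ p ∈ (Ioc x (2 * x)).filter Nat.Prime,
      ∀ q ∈ (Ioc x (2 * x)).filter (fun q : ℕ => q.Prime ∧ q ≠ p),
      ff (8 * ((p : ℤ) ^ 2 - (q : ℤ) ^ 2)).natAbs ≤
        ff 8 / 2 * ff ((p : ℤ) - q).natAbs ^ 2 + ff 8 / 2 * ff ((p : ℤ) + q).natAbs ^ 2 := by
    intro p hp q hq
    have e1 := mem_Ioc.1 (mem_filter.1 hp).1
    have e2 := mem_Ioc.1 (mem_filter.1 hq).1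
    have e3 := (mem_filter.1 hq).2.2
    have e4 : ((p : ℤ) - q).natAbs ≠ 0 := by omega
    have e5 : ((p : ℤ) + q).natAbs ≠ 0 := by omega
    have e6 : (8 * ((p : ℤ) ^ 2 - (q : ℤ) ^ 2)).natAbs =
        8 * (((p : ℤ) - q).natAbs * ((p : ℤ) + q).natAbs) := by
      rw [← Int.natAbs_mul, show (8 : ℕ) = (8 : ℤ).natAbs from rfl, ← Int.natAbs_mul]
      congr 1
      ring
    rw [e6]
    have e7 := hmul 8 (((p : ℤ) - q).natAbs * ((p : ℤ) + q).natAbs) (by norm_num) (mul_ne_zero e4 e5)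
    have e8 := hmul _ _ e4 e5
    have e9 := mul_le_mul_of_nonneg_left e8 h8.le
    have e10 : ff ((p : ℤ) - q).natAbs * ff ((p : ℤ) + q).natAbs ≤
        (ff ((p : ℤ) - q).natAbs ^ 2 + ff ((p : ℤ) + q).natAbs ^ 2) / 2 := by
      nlinarith [sq_nonneg (ff ((p : ℤ) - q).natAbs - ff ((p : ℤ) + q).natAbs)]
    have e11 := mul_le_mul_of_nonneg_left e10 h8.le
    calc _ ≤ _ := e7
      _ ≤ _ := e9
      _ ≤ _ := e11
      _ = _ := by ring
  have hsum : ∑ p ∈ (Ioc x (2 * x)).filter Nat.Prime,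
      ∑ q ∈ (Ioc x (2 * x)).filter (fun q : ℕ => q.Prime ∧ q ≠ p),
      ff (8 * ((p : ℤ) ^ 2 - (q : ℤ) ^ 2)).natAbs ≤
      ff 8 / 2 * (∑ p ∈ (Ioc x (2 * x)).filter Nat.Prime,
        ∑ q ∈ (Ioc x (2 * x)).filter (fun q : ℕ => q.Prime ∧ q ≠ p), ff ((p : ℤ) - q).natAbs ^ 2) +
      ff 8 / 2 * (∑ p ∈ (Ioc x (2 * x)).filter Nat.Prime,
        ∑ q ∈ (Ioc x (2 * x)).filter (fun q : ℕ => q.Prime ∧ q ≠ p), ff ((p : ℤ) + q).natAbs ^ 2) := by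
    rw [Finset.mul_sum, Finset.mul_sum, ← Finset.sum_add_distrib]
    refine Finset.sum_le_sum fun p hp => ?_
    rw [Finset.mul_sum, Finset.mul_sum, ← Finset.sum_add_distrib]
    exact Finset.sum_le_sum fun q hq => hterm p hp q hq
  refine hsum.trans ?_
  have h9 : 0 ≤ ff 8 / 2 := by positivity
  have hA' := mul_le_mul_of_nonneg_left hA h9
  have hB' := mul_le_mul_of_nonneg_left hB h9
  refine (add_le_add hA' hB').trans (le_of_eq ?_)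
  ring

end Pool.Agent.SCT
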